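import Mathlib

-- part Pool.Agent.Lib.MP_65ccae_an.Vec
section

namespace Pool.Agent.Lib.MP_65ccae_an

open Finset Filter

variable {𝕜 : Type} [RCLike 𝕜]

/-- the auxiliary Hilbert space -/
abbrev HH (𝕜 : Type) [RCLike 𝕜] : Type := lp (fun _ : ℕ => 𝕜) 2

/-- unit vectors -/
noncomputable def ev (𝕜 : Type) [RCLike 𝕜] (N : ℕ) : HH 𝕜 := lp.single 2 N (1 : 𝕜)

theorem ev_orth : Orthonormal 𝕜 (ev 𝕜) := by
  rw [orthonormal_iff_ite]
  intro i j
  unfold ev
  rw [lp.inner_single_left, lp.single_apply, Pi.single_apply]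
  split_ifs <;> simp

theorem norm_ev (N : ℕ) : ‖ev 𝕜 N‖ = 1 := ev_orth.1 N

/-- weighted block sums -/
noncomputable def vec (c : ℕ → ℝ) (g : ℕ → ℕ) (S : Finset ℕ) (x : ℕ → 𝕜) : HH 𝕜 :=
  ∑ j ∈ S, ((c j : 𝕜) * x j) • ev 𝕜 (g j)

theorem vec_add (c : ℕ → ℝ) (g : ℕ → ℕ) (S : Finset ℕ) (x y : ℕ → 𝕜) :
    vec c g S (x + y) = vec c g S x + vec c g S y := by
  simp [vec, mul_add, add_smul, sum_add_distrib]

theorem vec_smul (c : ℕ → ℝ) (g : ℕ → ℕ) (S : Finset ℕ) (a : 𝕜) (x : ℕ → 𝕜) :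
    vec c g S (a • x) = a • vec c g S x := by
  simp only [vec, smul_sum, smul_smul, Pi.smul_apply, smul_eq_mul]
  exact sum_congr rfl fun j _ => by ring_nf

theorem vec_cont (c : ℕ → ℝ) (g : ℕ → ℕ) (S : Finset ℕ) :
    Continuous fun x : ℕ → 𝕜 => vec c g S x := by
  unfold vec
  fun_prop

theorem vec_congr {c c' : ℕ → ℝ} {g : ℕ → ℕ} {S : Finset ℕ} {x y : ℕ → 𝕜}
    (h : ∀ j ∈ S, (c j : 𝕜) * x j = (c' j : 𝕜) * y j) : vec c g S x = vec c' g S y :=
  sum_congr rfl fun j hj => by rw [h j hj]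

theorem vec_subset {c : ℕ → ℝ} {g : ℕ → ℕ} {S S' : Finset ℕ} {x : ℕ → 𝕜} (hs : S ⊆ S')
    (h : ∀ j ∈ S', j ∉ S → x j = 0) : vec c g S x = vec c g S' x :=
  sum_subset hs fun j hj hj' => by simp [h j hj hj']

theorem vec_union {c : ℕ → ℝ} {g : ℕ → ℕ} {S S' : Finset ℕ} (x : ℕ → 𝕜) (h : Disjoint S S') :
    vec c g (S ∪ S') x = vec c g S x + vec c g S' x := sum_union h

theorem norm_vec_le (c : ℕ → ℝ) (g : ℕ → ℕ) (S : Finset ℕ) (x : ℕ → 𝕜) :
    ‖vec c g S x‖ ≤ ∑ j ∈ S, |c j| * ‖x j‖ := by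
  refine (norm_sum_le _ _).trans (le_of_eq (sum_congr rfl fun j _ => ?_))
  rw [norm_smul, norm_ev, norm_mul, RCLike.norm_ofReal, mul_one]

theorem vec_pyth {c : ℕ → ℝ} {g : ℕ → ℕ} {S S' : Finset ℕ} (x y : ℕ → 𝕜)
    (h : ∀ i ∈ S, ∀ j ∈ S', g i ≠ g j) :
    ‖vec c g S x + vec c g S' y‖ ^ 2 = ‖vec c g S x‖ ^ 2 + ‖vec c g S' y‖ ^ 2 := by
  have : inner 𝕜 (vec c g S x) (vec c g S' y) = 0 := by
    unfold vec
    rw [sum_inner]
    refine sum_eq_zero fun i hi => ?_
    rw [inner_sum]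
    refine sum_eq_zero fun j hj => ?_
    rw [inner_smul_left, inner_smul_right, ev_orth.2 (h i hi j hj)]
    simp
  simpa [sq] using norm_add_sq_eq_norm_sq_add_norm_sq_of_inner_eq_zero _ _ this

theorem norm_vec_id_sq (F : Finset ℕ) (x : ℕ → 𝕜) :
    ‖vec (fun _ => 1) id F x‖ ^ 2 = ∑ j ∈ F, ‖x j‖ ^ 2 := by
  classical
  induction F using Finset.induction_on with
  | empty => simp [vec]
  | insert a F ha ih =>
    rw [sum_insert ha, insert_eq, vec_union x (by simpa using ha), vec_pyth, ih]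
    · simp [vec, norm_smul, norm_ev]
    · intro i hi j hj
      rw [mem_singleton] at hi
      rintro (rfl : i = j)
      exact ha (hi ▸ hj)

theorem sum_norm_le_sqrt (F : Finset ℕ) (x : ℕ → 𝕜) :
    ∑ j ∈ F, ‖x j‖ ≤ √(F.card) * ‖vec (fun _ => 1) id F x‖ := by
  have h := sq_sum_le_card_mul_sum_sq (s := F) (f := fun j => ‖x j‖)
  rw [← norm_vec_id_sq] at h
  refine (pow_le_pow_iff_left₀ (sum_nonneg fun _ _ => norm_nonneg _) (by positivity)
    two_ne_zero).1 ?_
  rw [mul_pow, Real.sq_sqrt (by positivity)]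
  exact h

/-- sets that meet every block in an interval -/
def Adm (g : ℕ → ℕ) (S : Finset ℕ) : Prop :=
  ∀ i ∈ S, ∀ k ∈ S, g i = g k → ∀ j, i ≤ j → j ≤ k → j ∈ S

theorem adm_id (S : Finset ℕ) : Adm id S := by
  intro i hi k _ h j h1 h2
  have : i = k := h
  have : j = i := by omega
  exact this ▸ hi

theorem Adm.filter_ge {g : ℕ → ℕ} {S : Finset ℕ} (h : Adm g S) (n : ℕ) :
    Adm g (S.filter (n ≤ ·)) := by
  intro i hi k hk e j h1 h2
  rw [mem_filter] at *
  exact ⟨h i hi.1 k hk.1 e j h1 h2, by omega⟩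

theorem Adm.filter_lt {g : ℕ → ℕ} {S : Finset ℕ} (h : Adm g S) (n : ℕ) :
    Adm g (S.filter (· < n)) := by
  intro i hi k hk e j h1 h2
  rw [mem_filter] at *
  exact ⟨h i hi.1 k hk.1 e j h1 h2, by omega⟩

theorem Adm.union {g : ℕ → ℕ} {S S' : Finset ℕ} (h : Adm g S) (h' : Adm g S')
    (hd : ∀ i ∈ S, ∀ j ∈ S', g i ≠ g j) : Adm g (S ∪ S') := by
  intro i hi k hk e j h1 h2
  rw [mem_union] at *
  rcases hi with hi | hi <;> rcases hk with hk | hk
  · exact Or.inl (h i hi k hk e j h1 h2)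
  · exact absurd e (hd i hi k hk)
  · exact absurd e.symm (hd k hk i hi)
  · exact Or.inr (h' i hi k hk e j h1 h2)

/-- bound for all admissible block sums -/
def Bd (c : ℕ → ℝ) (g : ℕ → ℕ) (x : ℕ → 𝕜) (C : ℝ) : Prop :=
  ∀ S, Adm g S → ‖vec c g S x‖ ≤ C

theorem Bd.nonneg {c : ℕ → ℝ} {g : ℕ → ℕ} {x : ℕ → 𝕜} {C : ℝ} (h : Bd c g x C) : 0 ≤ C :=
  (norm_nonneg _).trans (h ∅ (by intro i hi; simp at hi))

theorem Bd.smul {c : ℕ → ℝ} {g : ℕ → ℕ} {x : ℕ → 𝕜} {C : ℝ} (h : Bd c g x C) (a : 𝕜) :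
    Bd c g (a • x) (‖a‖ * C) := fun S hS => by
  rw [vec_smul, norm_smul]
  exact mul_le_mul_of_nonneg_left (h S hS) (norm_nonneg _)

/-- initial part of a sequence -/
def trunc (n : ℕ) (x : ℕ → 𝕜) : ℕ → 𝕜 := fun j => if j < n then x j else 0

/-- tail of a sequence -/
def tail (n : ℕ) (x : ℕ → 𝕜) : ℕ → 𝕜 := fun j => if j < n then 0 else x j

theorem trunc_add_tail (n : ℕ) (x : ℕ → 𝕜) : trunc n x + tail n x = x := by
  funext j; simp only [trunc, tail, Pi.add_apply]; split_ifs <;> simp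

theorem vec_trunc (c : ℕ → ℝ) (g : ℕ → ℕ) (S : Finset ℕ) (n : ℕ) (x : ℕ → 𝕜) :
    vec c g S (trunc n x) = vec c g (S.filter (· < n)) x := by
  rw [← vec_subset (filter_subset (· < n) S)]
  · exact vec_congr fun j hj => by simp [trunc, (mem_filter.1 hj).2]
  · intro j hj hj'
    simp only [mem_filter, hj, true_and] at hj'
    simp [trunc, hj']

theorem vec_tail (c : ℕ → ℝ) (g : ℕ → ℕ) (S : Finset ℕ) (n : ℕ) (x : ℕ → 𝕜) :
    vec c g S (tail n x) = vec c g (S.filter (n ≤ ·)) x := by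
  rw [← vec_subset (filter_subset (n ≤ ·) S)]
  · exact vec_congr fun j hj => by simp [tail, not_lt.2 (mem_filter.1 hj).2]
  · intro j hj hj'
    simp only [mem_filter, hj, true_and, not_le] at hj'
    simp [tail, hj']

theorem Bd.trunc {c : ℕ → ℝ} {g : ℕ → ℕ} {x : ℕ → 𝕜} {C : ℝ} (h : Bd c g x C) (n : ℕ) :
    Bd c g (trunc n x) C := fun S hS => by
  rw [vec_trunc]; exact h _ (hS.filter_lt n)

theorem Bd.tail {c : ℕ → ℝ} {g : ℕ → ℕ} {x : ℕ → 𝕜} {C : ℝ} (h : Bd c g x C) (n : ℕ) :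
    Bd c g (tail n x) C := fun S hS => by
  rw [vec_tail]; exact h _ (hS.filter_ge n)

theorem exists_sep {g : ℕ → ℕ} (hg : Tendsto g atTop atTop) (S : Finset ℕ) :
    ∃ n, ∀ j, n ≤ j → ∀ i ∈ S, g i ≠ g j := by
  obtain ⟨n, hn⟩ := eventually_atTop.1 (hg.eventually_gt_atTop (S.sup g))
  exact ⟨n, fun j hj i hi => ne_of_lt (lt_of_le_of_lt (le_sup hi) (hn j hj))⟩

theorem Bd.tail_small {c : ℕ → ℝ} {g : ℕ → ℕ} (hg : Tendsto g atTop atTop) {x : ℕ → 𝕜} {C : ℝ}
    (h : Bd c g x C) {ε : ℝ} (hε : 0 < ε) : ∃ n₀, ∀ n, n₀ ≤ n → Bd c g (Pool.Agent.Lib.MP_65ccae_an.tail n x) ε := by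
  set T : Set ℝ := {r | ∃ S, Adm g S ∧ r = ‖vec c g S x‖ ^ 2} with hT
  have hne : T.Nonempty := ⟨_, ∅, by intro i hi; simp at hi, rfl⟩
  have hbd : BddAbove T := by
    refine ⟨C ^ 2, ?_⟩
    rintro _ ⟨S, hS, rfl⟩
    exact pow_le_pow_left₀ (norm_nonneg _) (h S hS) 2
  obtain ⟨_, ⟨S₀, hS₀, rfl⟩, h0⟩ :=
    exists_lt_of_lt_csSup hne (show sSup T - ε ^ 2 < sSup T by linarith [pow_pos hε 2])
  obtain ⟨n₀, hn₀⟩ := exists_sep hg S₀
  refine ⟨n₀, fun n hn S hS => ?_⟩
  rw [vec_tail]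
  have hd : ∀ i ∈ S₀, ∀ j ∈ S.filter (n ≤ ·), g i ≠ g j := fun i hi j hj =>
    hn₀ j (hn.trans (mem_filter.1 hj).2) i hi
  have h1 : ‖vec c g (S₀ ∪ S.filter (n ≤ ·)) x‖ ^ 2 ≤ sSup T :=
    le_csSup hbd ⟨_, hS₀.union (hS.filter_ge n) hd, rfl⟩
  rw [vec_union x (disjoint_left.2 fun i hi hi' => hd i hi i hi' rfl), vec_pyth x x hd] at h1
  exact le_of_lt (lt_of_pow_lt_pow_left₀ 2 hε.le (by linarith))

theorem Bd.add_sep {c : ℕ → ℝ} {g : ℕ → ℕ} {u v : ℕ → 𝕜} {n n' : ℕ} {k : ℝ} (hk : 0 ≤ k)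
    (hu0 : ∀ j, n ≤ j → u j = 0) (hv0 : ∀ j, j < n' → v j = 0)
    (hs : ∀ j, n' ≤ j → ∀ i ∈ range n, g i ≠ g j) (hu : Bd c g u √k) (hv : Bd c g v 1) :
    Bd c g (u + v) √(k + 1) := by
  intro S hS
  have e1 : u = Pool.Agent.Lib.MP_65ccae_an.trunc n u := by
    funext j; simp only [Pool.Agent.Lib.MP_65ccae_an.trunc]; split_ifs with h
    · rfl
    · exact hu0 j (not_lt.1 h)
  have e2 : v = Pool.Agent.Lib.MP_65ccae_an.tail n' v := by
    funext j; simp only [Pool.Agent.Lib.MP_65ccae_an.tail]; split_ifs with h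
    · exact hv0 j h
    · rfl
  apply Real.le_sqrt_of_sq_le
  rw [vec_add, e1, e2, vec_trunc, vec_tail, vec_pyth]
  · have h1 := pow_le_pow_left₀ (norm_nonneg _) (hu _ (hS.filter_lt n)) 2
    have h2 := pow_le_pow_left₀ (norm_nonneg _) (hv _ (hS.filter_ge n')) 2
    rw [Real.sq_sqrt hk] at h1
    linarith
  · intro i hi j hj
    exact hs j (mem_filter.1 hj).2 i (mem_range.2 (mem_filter.1 hi).2)

end Pool.Agent.Lib.MP_65ccae_an
end

-- part Pool.Agent.Lib.MP_65ccae_an.Val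
section

namespace Pool.Agent.Lib.MP_65ccae_an

open Finset

variable {𝕜 : Type} [RCLike 𝕜]

/-- the weights -/
noncomputable def wt (j : ℕ) : ℝ := (√((j : ℝ) + 1))⁻¹

/-- the coefficient of the greedy part -/
noncomputable def al (m : ℕ) : ℝ := 4 / √(m : ℝ)

theorem wt_pos (j : ℕ) : 0 < wt j := by unfold wt; positivity

theorem wt_anti {i j : ℕ} (h : i ≤ j) : wt j ≤ wt i := by
  unfold wt
  have : (i : ℝ) ≤ j := by exact_mod_cast h
  exact inv_anti₀ (by positivity) (Real.sqrt_le_sqrt (by linarith))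

theorem wt_sq (j : ℕ) : wt j ^ 2 = 1 / ((j : ℝ) + 1) := by
  unfold wt; rw [inv_pow, Real.sq_sqrt (by positivity), one_div]

theorem wt_le_one (j : ℕ) : wt j ≤ 1 := by
  have := wt_anti (Nat.zero_le j)
  simpa [wt] using this

theorem wt_mul_sqrt {k m : ℕ} (h : k ≤ m) : wt m * √(k : ℝ) ≤ 1 := by
  unfold wt
  have : (k : ℝ) ≤ m := by exact_mod_cast h
  rw [inv_mul_le_iff₀ (by positivity), mul_one]
  exact Real.sqrt_le_sqrt (by linarith)

theorem al_nonneg (m : ℕ) : 0 ≤ al m := by unfold al; positivity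

theorem al_mul_sqrt (m : ℕ) : al m * √(m : ℝ) ≤ 4 := by
  unfold al
  by_cases h : √(m : ℝ) = 0
  · simp [h]
  · rw [div_mul_cancel₀ _ h]

theorem mul_al (m : ℕ) : (m : ℝ) * al m = 4 * √(m : ℝ) := by
  unfold al
  have := Real.div_sqrt (x := (m : ℝ))
  rw [mul_div_assoc', mul_comm, mul_div_assoc, this]

theorem al_anti {m : ℕ} (hm : m ≠ 0) : al (m + 1) ≤ al m := by
  unfold al
  have : (0 : ℝ) < m := by positivity
  apply div_le_div_of_nonneg_left (by norm_num) (by positivity)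
  exact Real.sqrt_le_sqrt (by push_cast; linarith)

theorem sqrt_step (m : ℕ) : 2 * wt m ≤ 4 * √((m + 1 : ℕ) : ℝ) - 4 * √(m : ℝ) := by
  unfold wt
  push_cast
  set s := √(m : ℝ)
  set t := √((m : ℝ) + 1)
  have hs : s ^ 2 = m := Real.sq_sqrt (by positivity)
  have ht : t ^ 2 = m + 1 := Real.sq_sqrt (by positivity)
  have s0 : 0 ≤ s := Real.sqrt_nonneg _
  have t0 : 0 < t := by positivity
  rw [← div_eq_mul_inv, div_le_iff₀ t0]
  nlinarith [sq_nonneg (t - s)]

theorem wt_step (m : ℕ) : ((m : ℝ) + 1) * (wt m - wt (m + 1)) ≤ wt m := by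
  unfold wt
  push_cast
  set t := √((m : ℝ) + 1)
  set u := √((m : ℝ) + 1 + 1)
  have ht : t ^ 2 = m + 1 := Real.sq_sqrt (by positivity)
  have hu : u ^ 2 = m + 1 + 1 := Real.sq_sqrt (by positivity)
  have t0 : 0 < t := by positivity
  have u0 : 0 < u := by positivity
  have tu : t ≤ u := Real.sqrt_le_sqrt (by linarith)
  have t1 : 1 ≤ t := by
    have : (0 : ℝ) ≤ m := by positivity
    nlinarith
  rw [← ht]
  have e : t ^ 2 * (t⁻¹ - u⁻¹) = t * (u - t) / u := by field_simp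
  rw [e, div_le_iff₀ u0, inv_mul_eq_div, le_div_iff₀ t0]
  have h1 : (u - t) * (u + t) = 1 := by nlinarith
  have h2 : t * (u - t) ≤ 1 := by nlinarith
  nlinarith

variable (g : ℕ → ℕ)

/-- the greedy functional -/
noncomputable def val (A S : Finset ℕ) (x : ℕ → 𝕜) : ℝ :=
  al A.card * ∑ j ∈ A, ‖x j‖ + ‖vec (fun j => wt (max j A.card)) g (S \ A) x‖

theorem val_insert (A S : Finset ℕ) (x : ℕ → 𝕜) {n : ℕ} (hn : n ∉ A) (hx : ∀ j, ‖x j‖ ≤ ‖x n‖) :
    val g A S x ≤ val g (insert n A) S x := by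
  classical
  unfold val
  rw [card_insert_of_notMem hn, sum_insert hn]
  set m := A.card with hm
  set M := ‖x n‖ with hM
  have M0 : 0 ≤ M := norm_nonneg _
  set σ := ∑ j ∈ A, ‖x j‖ with hσ
  have σ0 : 0 ≤ σ := sum_nonneg fun _ _ => norm_nonneg _
  have σ1 : σ ≤ m * M := by
    have := sum_le_card_nsmul A (fun j => ‖x j‖) M (fun j _ => hx j)
    simpa using this
  have h1 : (al m - al (m + 1)) * σ ≤ (al m - al (m + 1)) * (m * M) := by
    by_cases h0 : m = 0
    · have : σ = 0 := by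
        rw [h0] at σ1; simp at σ1; linarith
      simp [this, h0]
    · exact mul_le_mul_of_nonneg_left σ1 (sub_nonneg.2 (al_anti h0))
  have h2 := mul_al m
  have h3 := mul_al (m + 1)
  have h4 := sqrt_step m
  have h5 : 2 * wt m * M ≤ al (m + 1) * (M + σ) - al m * σ := by
    have : (4 * √((m + 1 : ℕ) : ℝ) - 4 * √(m : ℝ)) * M
        = al (m + 1) * M - (al m - al (m + 1)) * (m * M) := by
      rw [← h2, ← h3]; push_cast; ring
    nlinarith [mul_le_mul_of_nonneg_right h4 M0]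
  -- the vector part
  set T := S \ insert n A with hT
  have h6 : ‖vec (fun j => wt (max j m)) g (S \ A) x‖ ≤
      ‖vec (fun j => wt (max j m)) g T x‖ + wt m * M := by
    by_cases hS : n ∈ S
    · have e : S \ A = T ∪ {n} := by
        ext j; simp only [hT, mem_sdiff, mem_union, mem_insert, mem_singleton]
        by_cases hj : j = n
        · subst hj; tauto
        · tauto
      rw [e, vec_union x (by simp [hT])]
      refine (norm_add_le _ _).trans (add_le_add le_rfl ((norm_vec_le _ _ _ _).trans ?_))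
      rw [sum_singleton, abs_of_pos (wt_pos _)]
      exact mul_le_mul_of_nonneg_right (wt_anti (le_max_right _ _)) M0
    · have e : S \ A = T := by
        ext j; simp only [hT, mem_sdiff, mem_insert]
        by_cases hj : j = n
        · subst hj; tauto
        · tauto
      rw [e]
      have := mul_nonneg (wt_pos m).le M0
      linarith
  have h7 : ‖vec (fun j => wt (max j m)) g T x‖ ≤
      ‖vec (fun j => wt (max j (m + 1))) g T x‖ + wt m * M := by
    have e : vec (fun j => wt (max j m)) g T x = vec (fun j => wt (max j (m + 1))) g T x +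
        vec (fun j => wt (max j m) - wt (max j (m + 1))) g T x := by
      unfold vec
      rw [← sum_add_distrib]
      refine sum_congr rfl fun j _ => ?_
      rw [← add_smul]; push_cast; ring_nf
    rw [e]
    refine (norm_add_le _ _).trans (add_le_add le_rfl ((norm_vec_le _ _ _ _).trans ?_))
    have d0 : 0 ≤ wt m - wt (m + 1) := sub_nonneg.2 (wt_anti (Nat.le_succ m))
    calc ∑ j ∈ T, |wt (max j m) - wt (max j (m + 1))| * ‖x j‖
        ≤ ∑ j ∈ T, if j ∈ range (m + 1) then (wt m - wt (m + 1)) * M else 0 := by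
          refine sum_le_sum fun j _ => ?_
          split_ifs with hj
          · rw [mem_range] at hj
            rw [max_eq_right (by omega), max_eq_right (by omega), abs_of_nonneg d0]
            exact mul_le_mul_of_nonneg_left (hx j) d0
          · rw [mem_range] at hj
            rw [max_eq_left (by omega), max_eq_left (by omega)]
            simp
      _ = ∑ j ∈ T ∩ range (m + 1), (wt m - wt (m + 1)) * M := by
          rw [sum_ite_mem]
      _ ≤ ∑ j ∈ range (m + 1), (wt m - wt (m + 1)) * M :=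
          sum_le_sum_of_subset_of_nonneg inter_subset_right fun _ _ _ => mul_nonneg d0 M0
      _ = ((m : ℝ) + 1) * (wt m - wt (m + 1)) * M := by
          rw [sum_const, card_range, nsmul_eq_mul]; push_cast; ring
      _ ≤ wt m * M := mul_le_mul_of_nonneg_right (wt_step m) M0
  linarith

theorem val_union (A S : Finset ℕ) (x : ℕ → 𝕜) (E : Finset ℕ)
    (hx : ∀ n ∈ E, ∀ j, ‖x j‖ ≤ ‖x n‖) : val g A S x ≤ val g (E ∪ A) S x := by
  classical
  induction E using Finset.induction_on with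
  | empty => simp
  | insert n E hn ih =>
    have ih' := ih fun k hk => hx k (mem_insert_of_mem hk)
    rw [insert_union]
    by_cases h : n ∈ E ∪ A
    · rw [insert_eq_of_mem h]; exact ih'
    · exact ih'.trans (val_insert g _ S x h (hx n (mem_insert_self _ _)))

theorem val_rearr (A S : Finset ℕ) (x y : ℕ → 𝕜) (π : ℕ ≃ ℕ) (h1 : ∀ n, ‖y (π n)‖ = ‖x n‖)
    (h2 : ∀ k, 0 < ‖x k‖ → (∃ n, ‖x k‖ < ‖x n‖) → π k = k ∧ y k = x k) :
    ∃ A', val g A S x ≤ val g A' S y := by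
  classical
  set E := (S ∪ S.map π.symm.toEmbedding).filter (fun n => ∀ j, ‖x j‖ ≤ ‖x n‖) with hE
  have h3 := val_union g A S x E fun n hn => (mem_filter.1 hn).2
  set B := E ∪ A with hB
  refine ⟨B.map π.toEmbedding, h3.trans (le_of_eq ?_)⟩
  have fix : ∀ k, (k ∈ S ∨ π k ∈ S) → k ∉ B → x k ≠ 0 → π k = k ∧ y k = x k := by
    intro k hk hkB hx
    apply h2 k (norm_pos_iff.2 hx)
    by_contra hc
    push Not at hc
    apply hkB
    rw [hB, mem_union]
    left
    rw [hE, mem_filter, mem_union, mem_map_equiv]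
    exact ⟨by simpa using hk, hc⟩
  unfold val
  rw [card_map, sum_map]
  simp only [Equiv.coe_toEmbedding, h1]
  congr 2
  set c := fun j => wt (max j B.card)
  have a1 : vec c g ((S \ B) ∩ (S \ B.map π.toEmbedding)) x = vec c g (S \ B) x := by
    apply vec_subset inter_subset_left
    intro j hj hj'
    by_contra hx
    rw [mem_sdiff] at hj
    have := fix j (Or.inl hj.1) hj.2 hx
    apply hj'
    rw [mem_inter, mem_sdiff, mem_sdiff, mem_map_equiv]
    refine ⟨hj, hj.1, ?_⟩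
    rw [← this.1, Equiv.symm_apply_apply]
    exact hj.2
  have a2 : vec c g ((S \ B) ∩ (S \ B.map π.toEmbedding)) y
      = vec c g (S \ B.map π.toEmbedding) y := by
    apply vec_subset inter_subset_right
    intro j hj hj'
    by_contra hy
    have hj2 := hj
    rw [mem_sdiff, mem_map_equiv] at hj
    have hx : x (π.symm j) ≠ 0 := by
      rw [← norm_ne_zero_iff, ← h1, Equiv.apply_symm_apply, norm_ne_zero_iff]
      exact hy
    have := fix (π.symm j) (Or.inr (by simpa using hj.1)) hj.2 hx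
    rw [Equiv.apply_symm_apply] at this
    apply hj'
    rw [mem_inter]
    refine ⟨mem_sdiff.2 ⟨hj.1, ?_⟩, hj2⟩
    rw [this.1]; exact hj.2
  rw [← a1, ← a2]
  apply vec_congr
  intro j hj
  rw [mem_inter, mem_sdiff, mem_sdiff, mem_map_equiv] at hj
  by_cases hx : x j = 0
  · by_cases hy : y j = 0
    · rw [hx, hy]
    · have hx' : x (π.symm j) ≠ 0 := by
        rw [← norm_ne_zero_iff, ← h1, Equiv.apply_symm_apply, norm_ne_zero_iff]
        exact hy
      have := fix (π.symm j) (Or.inr (by simpa using hj.1.1)) hj.2.2 hx'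
      rw [Equiv.apply_symm_apply] at this
      rw [← this.1] at hx'
      exact absurd hx hx'
  · rw [(fix j (Or.inl hj.1.1) hj.1.2 hx).2]

theorem val_le {A S : Finset ℕ} (hS : Adm g S) {x : ℕ → 𝕜} {C₁ C₂ : ℝ}
    (h1 : Bd (fun _ => 1) id x C₁) (h2 : Bd wt g x C₂) : val g A S x ≤ 6 * C₁ + C₂ := by
  classical
  unfold val
  set m := A.card with hm
  have C0 := h1.nonneg
  have key : ∀ F : Finset ℕ, ∑ j ∈ F, ‖x j‖ ≤ √(F.card) * C₁ := fun F =>
    (sum_norm_le_sqrt F x).trans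
      (mul_le_mul_of_nonneg_left (h1 F (adm_id F)) (Real.sqrt_nonneg _))
  have key2 : ∀ F : Finset ℕ, F.card ≤ m → ‖vec (fun j => wt (max j m)) g F x‖ ≤ C₁ := by
    intro F hF
    refine (norm_vec_le _ _ _ _).trans ?_
    calc ∑ j ∈ F, |wt (max j m)| * ‖x j‖ ≤ ∑ j ∈ F, wt m * ‖x j‖ := by
          refine sum_le_sum fun j _ => mul_le_mul_of_nonneg_right ?_ (norm_nonneg _)
          rw [abs_of_pos (wt_pos _)]
          exact wt_anti (le_max_right _ _)
      _ = wt m * ∑ j ∈ F, ‖x j‖ := by rw [mul_sum]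
      _ ≤ wt m * (√(F.card) * C₁) := mul_le_mul_of_nonneg_left (key F) (wt_pos m).le
      _ ≤ C₁ := by
          rw [← mul_assoc]
          exact mul_le_of_le_one_left C0 (wt_mul_sqrt hF)
  have p1 : al m * ∑ j ∈ A, ‖x j‖ ≤ 4 * C₁ := by
    refine (mul_le_mul_of_nonneg_left (key A) (al_nonneg m)).trans ?_
    rw [← mul_assoc]
    exact mul_le_mul_of_nonneg_right (al_mul_sqrt m) C0
  set c := fun j => wt (max j m) with hc
  have e1 : vec c g S x = vec c g (S \ A) x + vec c g (S ∩ A) x := by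
    rw [← vec_union x (disjoint_sdiff_inter S A), sdiff_union_inter]
  have e2 : vec c g S x = vec c g (S.filter (· < m)) x + vec wt g (S.filter (m ≤ ·)) x := by
    have : vec wt g (S.filter (m ≤ ·)) x = vec c g (S.filter (m ≤ ·)) x := by
      apply vec_congr
      intro j hj
      simp only [hc, max_eq_left (mem_filter.1 hj).2]
    rw [this, ← vec_union x]
    · congr 1
      ext j; simp only [mem_union, mem_filter]
      constructor
      · intro h; by_cases hj : j < m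
        · exact Or.inl ⟨h, hj⟩
        · exact Or.inr ⟨h, not_lt.1 hj⟩
      · tauto
    · rw [disjoint_left]
      intro j hj hj'
      rw [mem_filter] at hj hj'
      omega
  have b1 := key2 (S ∩ A) (card_le_card inter_subset_right)
  have b2 := key2 (S.filter (· < m)) (by
    refine (card_le_card (t := range m) ?_).trans (by simp)
    intro j hj; exact mem_range.2 (mem_filter.1 hj).2)
  have b3 := h2 _ (hS.filter_ge m)
  have e3 : vec c g (S \ A) x = vec c g (S.filter (· < m)) x + vec wt g (S.filter (m ≤ ·)) x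
      - vec c g (S ∩ A) x := by rw [← e2, e1]; abel
  have b4 : ‖vec c g (S \ A) x‖ ≤ C₁ + C₂ + C₁ := by
    rw [e3]
    exact (norm_sub_le _ _).trans (add_le_add ((norm_add_le _ _).trans (add_le_add b2 b3)) b1)
  linarith

theorem val_empty (S : Finset ℕ) (x : ℕ → 𝕜) : val g ∅ S x = ‖vec wt g S x‖ := by
  simp [val]

theorem val_nonneg (A S : Finset ℕ) (x : ℕ → 𝕜) : 0 ≤ val g A S x :=
  add_nonneg (mul_nonneg (al_nonneg _) (sum_nonneg fun _ _ => norm_nonneg _)) (norm_nonneg _)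

end Pool.Agent.Lib.MP_65ccae_an
end

-- part Pool.Agent.Lib.MP_65ccae_an.Space
section

namespace Pool.Agent.Lib.MP_65ccae_an

open Finset Topology

variable {𝕜 : Type} [RCLike 𝕜] {g : ℕ → ℕ}

/-- index set of the norming family -/
abbrev Idx (g : ℕ → ℕ) : Type := Finset ℕ × Finset ℕ × {S : Finset ℕ // Adm g S}

instance : Nonempty (Idx g) := ⟨(∅, ∅, ⟨∅, by intro i hi; simp at hi⟩)⟩

/-- the norming family -/
noncomputable def pp (i : Idx g) (x : ℕ → 𝕜) : ℝ :=
  ‖vec (fun _ => 1) id i.1 x‖ + val g i.2.1 i.2.2.1 x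

theorem pp_nonneg (i : Idx g) (x : ℕ → 𝕜) : 0 ≤ pp i x :=
  add_nonneg (norm_nonneg _) (val_nonneg _ _ _ _)

theorem pp_add (i : Idx g) (x y : ℕ → 𝕜) : pp i (x + y) ≤ pp i x + pp i y := by
  unfold pp val
  rw [vec_add, vec_add]
  have h1 := norm_add_le (vec (fun _ => 1) id i.1 x) (vec (fun _ => 1) id i.1 y)
  have h2 := norm_add_le (vec (fun j => wt (max j i.2.1.card)) g (i.2.2.1 \ i.2.1) x)
    (vec (fun j => wt (max j i.2.1.card)) g (i.2.2.1 \ i.2.1) y)
  have h3 : ∑ j ∈ i.2.1, ‖(x + y) j‖ ≤ ∑ j ∈ i.2.1, ‖x j‖ + ∑ j ∈ i.2.1, ‖y j‖ := by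
    rw [← sum_add_distrib]
    exact sum_le_sum fun j _ => norm_add_le _ _
  have h4 := mul_le_mul_of_nonneg_left h3 (al_nonneg i.2.1.card)
  linarith

theorem pp_smul (i : Idx g) (a : 𝕜) (x : ℕ → 𝕜) : pp i (a • x) = ‖a‖ * pp i x := by
  unfold pp val
  rw [vec_smul, vec_smul, norm_smul, norm_smul]
  simp only [Pi.smul_apply, norm_smul, ← mul_sum]
  ring

theorem pp_cont (i : Idx g) : Continuous fun x : ℕ → 𝕜 => pp i x := by
  unfold pp val
  have := vec_cont (𝕜 := 𝕜) (fun _ => 1) id i.1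
  have := vec_cont (𝕜 := 𝕜) (fun j => wt (max j i.2.1.card)) g (i.2.2.1 \ i.2.1)
  fun_prop

theorem pp_le {x : ℕ → 𝕜} {C₁ C₂ : ℝ} (h1 : Bd (fun _ => 1) id x C₁) (h2 : Bd wt g x C₂)
    (i : Idx g) : pp i x ≤ 7 * C₁ + C₂ := by
  have := val_le g (A := i.2.1) i.2.2.2 h1 h2
  have := h1 i.1 (adm_id _)
  unfold pp; linarith

theorem bd1_of_pp {x : ℕ → 𝕜} {C : ℝ} (h : ∀ i : Idx g, pp i x ≤ C) :
    Bd (fun _ => 1) id x C := fun S _ => by
  have := h (S, ∅, ⟨∅, by intro i hi; simp at hi⟩)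
  have h2 := val_nonneg g ∅ ∅ x
  unfold pp at this
  dsimp only at this
  linarith

theorem bd2_of_pp {x : ℕ → 𝕜} {C : ℝ} (h : ∀ i : Idx g, pp i x ≤ C) : Bd wt g x C :=
  fun S hS => by
  have := h (∅, ∅, ⟨S, hS⟩)
  unfold pp at this
  dsimp only at this
  rw [val_empty] at this
  have h2 := norm_nonneg (vec (fun _ => 1) id ∅ x)
  linarith

theorem coord_le_of_bd {x : ℕ → 𝕜} {C : ℝ} (h : Bd (fun _ => 1) id x C) (j : ℕ) : ‖x j‖ ≤ C := by
  have := h {j} (adm_id _)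
  simpa [vec, norm_smul, norm_ev] using this

variable (𝕜 g) in
/-- sequences on which the family is bounded -/
def Sub : Submodule 𝕜 (ℕ → 𝕜) where
  carrier := {x | ∃ C, ∀ i : Idx g, pp i x ≤ C}
  add_mem' := by
    rintro x y ⟨C, hC⟩ ⟨D, hD⟩
    exact ⟨C + D, fun i => (pp_add i x y).trans (add_le_add (hC i) (hD i))⟩
  zero_mem' := ⟨0, fun i => by
    have := pp_smul i (0 : 𝕜) (0 : ℕ → 𝕜)
    simp only [smul_zero, norm_zero, zero_mul] at this
    exact this.le⟩
  smul_mem' := by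
    rintro a x ⟨C, hC⟩
    exact ⟨‖a‖ * C, fun i => by
      rw [pp_smul]; exact mul_le_mul_of_nonneg_left (hC i) (norm_nonneg _)⟩

variable (𝕜 g) in
/-- the Banach space -/
def XX : Type := ↥(Sub 𝕜 g)

noncomputable instance : AddCommGroup (XX 𝕜 g) := inferInstanceAs (AddCommGroup ↥(Sub 𝕜 g))
noncomputable instance : Module 𝕜 (XX 𝕜 g) := inferInstanceAs (Module 𝕜 ↥(Sub 𝕜 g))

/-- the underlying sequence -/
def XX.seq (x : XX 𝕜 g) : ℕ → 𝕜 := Subtype.val x

/-- an element from a sequence -/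
def XX.mk (x : ℕ → 𝕜) (C : ℝ) (h : ∀ i : Idx g, pp i x ≤ C) : XX 𝕜 g := Subtype.mk x ⟨C, h⟩

@[simp] theorem seq_mk (x : ℕ → 𝕜) (C : ℝ) (h : ∀ i : Idx g, pp i x ≤ C) :
    (XX.mk x C h).seq = x := rfl
@[simp] theorem seq_add (x y : XX 𝕜 g) : (x + y).seq = x.seq + y.seq := rfl
@[simp] theorem seq_sub (x y : XX 𝕜 g) : (x - y).seq = x.seq - y.seq := rfl
@[simp] theorem seq_neg (x : XX 𝕜 g) : (-x).seq = -x.seq := rfl
@[simp] theorem seq_zero : (0 : XX 𝕜 g).seq = 0 := rfl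
@[simp] theorem seq_smul (a : 𝕜) (x : XX 𝕜 g) : (a • x).seq = a • x.seq := rfl
theorem seq_ext {x y : XX 𝕜 g} (h : x.seq = y.seq) : x = y := Subtype.ext h
theorem seq_sum {ι : Type} (s : Finset ι) (f : ι → XX 𝕜 g) :
    (∑ i ∈ s, f i).seq = ∑ i ∈ s, (f i).seq := by
  classical
  induction s using Finset.induction_on with
  | empty => simp
  | insert a s ha ih => rw [sum_insert ha, sum_insert ha, seq_add, ih]

/-- the norm -/
noncomputable def nrm (x : XX 𝕜 g) : ℝ := ⨆ i : Idx g, pp i x.seq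

theorem pp_le_nrm (x : XX 𝕜 g) (i : Idx g) : pp i x.seq ≤ nrm x := by
  obtain ⟨C, hC⟩ := x.2
  exact le_ciSup (f := fun i : Idx g => pp i x.seq) ⟨C, by rintro _ ⟨i, rfl⟩; exact hC i⟩ i

theorem nrm_le {x : XX 𝕜 g} {C : ℝ} (h : ∀ i : Idx g, pp i x.seq ≤ C) : nrm x ≤ C := ciSup_le h

theorem nrm_smul_le (a : 𝕜) (x : XX 𝕜 g) : nrm (a • x) ≤ ‖a‖ * nrm x :=
  nrm_le fun i => by
    rw [seq_smul, pp_smul]
    exact mul_le_mul_of_nonneg_left (pp_le_nrm x i) (norm_nonneg _)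

noncomputable instance : NormedAddCommGroup (XX 𝕜 g) :=
  AddGroupNorm.toNormedAddCommGroup
    { toFun := nrm
      map_zero' := by
        apply le_antisymm
        · simpa using nrm_smul_le (0 : 𝕜) (0 : XX 𝕜 g)
        · obtain ⟨i⟩ : Nonempty (Idx g) := inferInstance
          exact (pp_nonneg i _).trans (pp_le_nrm _ i)
      add_le' := fun x y => nrm_le fun i =>
        (pp_add i _ _).trans (add_le_add (pp_le_nrm x i) (pp_le_nrm y i))
      neg' := fun x => by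
        apply le_antisymm
        · simpa using nrm_smul_le (-1 : 𝕜) x
        · simpa using nrm_smul_le (-1 : 𝕜) (-x)
      eq_zero_of_map_eq_zero' := fun x hx => by
        apply seq_ext
        funext j
        have := coord_le_of_bd (bd1_of_pp (pp_le_nrm x)) j
        rw [hx] at this
        simpa using this }

theorem norm_eq (x : XX 𝕜 g) : ‖x‖ = nrm x := rfl

noncomputable instance : NormedSpace 𝕜 (XX 𝕜 g) where
  norm_smul_le := nrm_smul_le

theorem pp_le_norm (x : XX 𝕜 g) (i : Idx g) : pp i x.seq ≤ ‖x‖ := pp_le_nrm x i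
theorem norm_le_of_pp {x : XX 𝕜 g} {C : ℝ} (h : ∀ i : Idx g, pp i x.seq ≤ C) : ‖x‖ ≤ C := nrm_le h
theorem bd1 (x : XX 𝕜 g) : Bd (fun _ => 1) id x.seq ‖x‖ := bd1_of_pp (pp_le_norm x)
theorem bd2 (x : XX 𝕜 g) : Bd wt g x.seq ‖x‖ := bd2_of_pp (pp_le_norm x)
theorem coord_le (x : XX 𝕜 g) (j : ℕ) : ‖x.seq j‖ ≤ ‖x‖ := coord_le_of_bd (bd1 x) j
theorem norm_le_of_bd {x : XX 𝕜 g} {C₁ C₂ : ℝ} (h1 : Bd (fun _ => 1) id x.seq C₁)
    (h2 : Bd wt g x.seq C₂) : ‖x‖ ≤ 7 * C₁ + C₂ := norm_le_of_pp (pp_le h1 h2)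

instance : CompleteSpace (XX 𝕜 g) := by
  refine Metric.complete_of_cauchySeq_tendsto fun u hu => ?_
  obtain ⟨b, b0, hb, hb'⟩ := cauchySeq_iff_le_tendsto_0.1 hu
  have hc : ∀ j, CauchySeq fun n => (u n).seq j := fun j =>
    cauchySeq_iff_le_tendsto_0.2 ⟨b, b0, fun n m N hn hm => by
      have := coord_le (u n - u m) j
      rw [dist_eq_norm]
      refine le_trans ?_ (hb n m N hn hm)
      rw [dist_eq_norm]
      simpa using this, hb'⟩
  choose x hx using fun j => cauchySeq_tendsto_of_complete (hc j)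
  have hx' : Filter.Tendsto (fun n => (u n).seq) Filter.atTop (𝓝 x) := tendsto_pi_nhds.2 hx
  have key : ∀ n (i : Idx g), pp i ((u n).seq - x) ≤ b n := by
    intro n i
    have h1 : Filter.Tendsto (fun m => pp i ((u n).seq - (u m).seq)) Filter.atTop
        (𝓝 (pp i ((u n).seq - x))) :=
      ((pp_cont i).tendsto _).comp (tendsto_const_nhds.sub hx')
    refine le_of_tendsto h1 (Filter.eventually_atTop.2 ⟨n, fun m hm => ?_⟩)
    refine (pp_le_norm (u n - u m) i).trans ?_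
    rw [← dist_eq_norm]
    exact hb n m n le_rfl hm
  refine ⟨u 0 - XX.mk _ _ (key 0), ?_⟩
  rw [tendsto_iff_norm_sub_tendsto_zero]
  refine squeeze_zero (fun _ => norm_nonneg _) (fun n => norm_le_of_pp fun i => ?_) hb'
  simpa using key n i

/-- coordinate functionals -/
noncomputable def crd (j : ℕ) : StrongDual 𝕜 (XX 𝕜 g) :=
  LinearMap.mkContinuous
    { toFun := fun x => x.seq j, map_add' := fun _ _ => rfl, map_smul' := fun _ _ => rfl } 1
    fun x => by simpa using coord_le x j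

@[simp] theorem crd_apply (j : ℕ) (x : XX 𝕜 g) : crd j x = x.seq j := rfl

theorem bd_single {c : ℕ → ℝ} (hc : ∀ j, |c j| ≤ 1) (g : ℕ → ℕ) (n : ℕ) :
    Bd c g (Pi.single n (1 : 𝕜)) 1 := by
  intro S _
  refine (norm_vec_le _ _ _ _).trans ?_
  calc ∑ j ∈ S, |c j| * ‖(Pi.single n (1 : 𝕜) : ℕ → 𝕜) j‖ ≤ ∑ j ∈ S, if j = n then 1 else 0 := by
        refine sum_le_sum fun j _ => ?_
        split_ifs with h
        · subst h; simpa using hc j
        · simp [h]
    _ ≤ 1 := by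
        rw [sum_ite_eq']; split_ifs <;> norm_num

/-- basis vectors -/
noncomputable def bas (n : ℕ) : XX 𝕜 g :=
  XX.mk (Pi.single n 1) _ (pp_le (bd_single (by simp) id n)
    (bd_single (fun j => by rw [abs_of_pos (wt_pos j)]; exact wt_le_one j) g n))

@[simp] theorem bas_seq (n : ℕ) : (bas n : XX 𝕜 g).seq = Pi.single n 1 := rfl

theorem seq_comb (A : Finset ℕ) (a : ℕ → 𝕜) :
    (∑ j ∈ A, a j • (bas j : XX 𝕜 g)).seq = fun j => if j ∈ A then a j else 0 := by
  rw [seq_sum]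
  funext j
  simp [Finset.sum_apply, Pi.single_apply]

theorem seq_comb_range (n : ℕ) (a : ℕ → 𝕜) :
    (∑ j ∈ range n, a j • (bas j : XX 𝕜 g)).seq = trunc n a := by
  rw [seq_comb]; funext j; simp [trunc]

/-- initial projection -/
noncomputable def prj (n : ℕ) (x : XX 𝕜 g) : XX 𝕜 g := ∑ j ∈ range n, x.seq j • bas j

theorem prj_seq (n : ℕ) (x : XX 𝕜 g) : (prj n x).seq = trunc n x.seq := seq_comb_range n _

theorem sub_prj_seq (n : ℕ) (x : XX 𝕜 g) : (x - prj n x).seq = tail n x.seq := by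
  rw [seq_sub, prj_seq, sub_eq_iff_eq_add', trunc_add_tail]

theorem norm_prj_le (n : ℕ) (x : XX 𝕜 g) : ‖prj n x‖ ≤ 8 * ‖x‖ := by
  have := norm_le_of_bd (x := prj n x) (by rw [prj_seq]; exact (bd1 x).trunc n)
    (by rw [prj_seq]; exact (bd2 x).trunc n)
  linarith

theorem norm_sub_prj_le (n : ℕ) (x : XX 𝕜 g) : ‖x - prj n x‖ ≤ 8 * ‖x‖ := by
  have := norm_le_of_bd (x := x - prj n x) (by rw [sub_prj_seq]; exact (bd1 x).tail n)
    (by rw [sub_prj_seq]; exact (bd2 x).tail n)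
  linarith

theorem tendsto_prj (hg : Filter.Tendsto g Filter.atTop Filter.atTop) (x : XX 𝕜 g) :
    Filter.Tendsto (fun n => prj n x) Filter.atTop (𝓝 x) := by
  rw [Metric.tendsto_atTop]
  intro ε hε
  obtain ⟨n₁, h1⟩ := (bd1 x).tail_small Filter.tendsto_id (show 0 < ε / 9 by positivity)
  obtain ⟨n₂, h2⟩ := (bd2 x).tail_small hg (show 0 < ε / 9 by positivity)
  refine ⟨max n₁ n₂, fun n hn => ?_⟩
  rw [dist_comm, dist_eq_norm]
  have := norm_le_of_bd (x := x - prj n x)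
    (by rw [sub_prj_seq]; exact h1 n (le_of_max_le_left hn))
    (by rw [sub_prj_seq]; exact h2 n (le_of_max_le_right hn))
  linarith

/-- the Schauder basis -/
noncomputable def sb (hg : Filter.Tendsto g Filter.atTop Filter.atTop) :
    SchauderBasis 𝕜 (XX 𝕜 g) where
  basis := bas
  coord := crd
  ortho i j := by simp [Pi.single_apply]
  expansion x := by
    unfold HasSum
    rw [SummationFilter.conditional_filter_eq_map_range, Filter.tendsto_map'_iff]
    exact tendsto_prj hg x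

theorem propA_le (x y : XX 𝕜 g) (π : ℕ ≃ ℕ) (h1 : ∀ n, ‖y.seq (π n)‖ = ‖x.seq n‖)
    (h2 : ∀ k, 0 < ‖x.seq k‖ → (∃ n, ‖x.seq k‖ < ‖x.seq n‖) → π k = k ∧ y.seq k = x.seq k) :
    ‖x‖ ≤ ‖y‖ := by
  refine norm_le_of_pp fun i => ?_
  obtain ⟨A', hA'⟩ := val_rearr g i.2.1 i.2.2.1 x.seq y.seq π h1 h2
  refine le_trans ?_ (pp_le_norm y (i.1.map π.toEmbedding, A', i.2.2))
  unfold pp
  refine add_le_add (le_of_eq ?_) hA'
  rw [← pow_left_inj₀ (norm_nonneg _) (norm_nonneg _) two_ne_zero, norm_vec_id_sq,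
    norm_vec_id_sq, sum_map]
  simp [h1]

theorem propA (x y : XX 𝕜 g) (π : ℕ ≃ ℕ) (h1 : ∀ n, ‖y.seq (π n)‖ = ‖x.seq n‖)
    (h2 : ∀ k, 0 < ‖x.seq k‖ → (∃ n, ‖x.seq k‖ < ‖x.seq n‖) → π k = k ∧ y.seq k = x.seq k) :
    ‖x‖ = ‖y‖ := by
  refine le_antisymm (propA_le x y π h1 h2) (propA_le y x π.symm ?_ ?_)
  · intro n; rw [← h1, Equiv.apply_symm_apply]
  · rintro k hk ⟨n, hn⟩
    have e : ∀ m, ‖y.seq m‖ = ‖x.seq (π.symm m)‖ := fun m => by rw [← h1, Equiv.apply_symm_apply]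
    have := h2 (π.symm k) (e k ▸ hk) ⟨π.symm n, by rw [← e, ← e]; exact hn⟩
    rw [Equiv.apply_symm_apply] at this
    rw [← this.1] at this
    refine ⟨?_, this.2.symm⟩
    have h3 := (h2 (π.symm k) (e k ▸ hk) ⟨π.symm n, by rw [← e, ← e]; exact hn⟩).1
    rw [Equiv.apply_symm_apply] at h3
    exact h3.symm

end Pool.Agent.Lib.MP_65ccae_an
end

-- part Pool.Agent.Lib.MP_65ccae_an.Refl
section

namespace Pool.Agent.Lib.MP_65ccae_an

open Finset Topology

variable {𝕜 : Type} [RCLike 𝕜] {g : ℕ → ℕ}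

theorem shrink (hg : Filter.Tendsto g Filter.atTop Filter.atTop) (f : StrongDual 𝕜 (XX 𝕜 g))
    {ε : ℝ} (hε : 0 < ε) : ∃ n, ∀ x : XX 𝕜 g, ‖f (x - prj n x)‖ ≤ ε * ‖x‖ := by
  by_contra hc
  push Not at hc
  -- a normalised block beyond any given index
  have blockv : ∀ n, ∃ (l : ℕ) (v : XX 𝕜 g), (∀ j, j < n → v.seq j = 0) ∧
      (∀ j, l ≤ j → v.seq j = 0) ∧ Bd (fun _ => 1) id v.seq 1 ∧ Bd wt g v.seq 1 ∧
      ε ≤ RCLike.re (f v) := by
    intro n
    obtain ⟨x, hx⟩ := hc n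
    have x0 : x ≠ 0 := by
      rintro rfl
      simp [prj] at hx
    have xp : 0 < ‖x‖ := norm_pos_iff.2 x0
    set z := x - prj n x with hz
    have h1 : Filter.Tendsto (fun l => ‖f (prj l z)‖) Filter.atTop (𝓝 ‖f z‖) :=
      ((f.continuous.tendsto z).comp (tendsto_prj hg z)).norm
    obtain ⟨l, hl⟩ := (h1.eventually (lt_mem_nhds hx)).exists
    obtain ⟨θ, hθ, hθ'⟩ := RCLike.exists_norm_eq_mul_self (f (prj l z))
    have hn : ‖θ * ((‖x‖⁻¹ : ℝ) : 𝕜)‖ * ‖x‖ = 1 := by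
      rw [norm_mul, hθ, RCLike.norm_ofReal, abs_of_pos (inv_pos.2 xp), one_mul,
        inv_mul_cancel₀ xp.ne']
    refine ⟨l, (θ * ((‖x‖⁻¹ : ℝ) : 𝕜)) • prj l z, ?_, ?_, ?_, ?_, ?_⟩
    · intro j hj
      rw [seq_smul, prj_seq, hz, sub_prj_seq]
      simp [trunc, tail, hj]
    · intro j hj
      simp [prj_seq, trunc, not_lt.2 hj]
    · have := (((bd1 x).tail n).trunc l).smul (θ * ((‖x‖⁻¹ : ℝ) : 𝕜))
      rw [hn] at this
      rw [seq_smul, prj_seq, hz, sub_prj_seq]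
      exact this
    · have := (((bd2 x).tail n).trunc l).smul (θ * ((‖x‖⁻¹ : ℝ) : 𝕜))
      rw [hn] at this
      rw [seq_smul, prj_seq, hz, sub_prj_seq]
      exact this
    · rw [map_smul, smul_eq_mul, mul_right_comm, ← hθ', ← RCLike.ofReal_mul, RCLike.ofReal_re,
        ← div_eq_mul_inv, le_div_iff₀ xp]
      exact hl.le
  have main : ∀ k : ℕ, ∃ (n : ℕ) (u : XX 𝕜 g), (∀ j, n ≤ j → u.seq j = 0) ∧
      Bd (fun _ => 1) id u.seq √k ∧ Bd wt g u.seq √k ∧ k * ε ≤ RCLike.re (f u) := by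
    intro k
    induction k with
    | zero =>
      refine ⟨0, 0, fun _ _ => rfl, ?_, ?_, by simp⟩
      · intro S _; simp [vec]
      · intro S _; simp [vec]
    | succ k ih =>
      obtain ⟨n, u, u0, u1, u2, u3⟩ := ih
      obtain ⟨n₁, hn₁⟩ := exists_sep (g := id) Filter.tendsto_id (range n)
      obtain ⟨n₂, hn₂⟩ := exists_sep hg (range n)
      obtain ⟨l, v, v0, v0', v1, v2, v3⟩ := blockv (max n₁ n₂)
      refine ⟨max n l, u + v, ?_, ?_, ?_, ?_⟩
      · intro j hj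
        simp [u0 j (le_of_max_le_left hj), v0' j (le_of_max_le_right hj)]
      · rw [seq_add]; push_cast
        exact Bd.add_sep (by positivity) u0 v0
          (fun j hj => hn₁ j (le_of_max_le_left hj)) u1 v1
      · rw [seq_add]; push_cast
        exact Bd.add_sep (by positivity) u0 v0
          (fun j hj => hn₂ j (le_of_max_le_right hj)) u2 v2
      · rw [map_add, map_add]; push_cast; linarith
  obtain ⟨k, hk⟩ := exists_nat_gt ((8 * ‖f‖ / ε) ^ 2)
  obtain ⟨n, u, -, u1, u2, u3⟩ := main k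
  have h1 : ‖u‖ ≤ 8 * √k := by linarith [norm_le_of_bd u1 u2]
  have h2 : RCLike.re (f u) ≤ ‖f‖ * (8 * √k) :=
    (RCLike.re_le_norm _).trans ((f.le_opNorm u).trans
      (mul_le_mul_of_nonneg_left h1 (norm_nonneg _)))
  have h3 : 8 * ‖f‖ / ε < √k := Real.lt_sqrt_of_sq_lt hk
  rw [div_lt_iff₀ hε] at h3
  have h4 : √k * √k = (k : ℝ) := Real.mul_self_sqrt (by positivity)
  have h5 : 0 < √k := lt_of_le_of_lt (by positivity) (Real.lt_sqrt_of_sq_lt hk)
  nlinarith [mul_lt_mul_of_pos_left h3 h5]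

theorem pp_trunc (i : Idx g) (x : ℕ → 𝕜) : ∃ n, pp i (trunc n x) = pp i x := by
  refine ⟨(i.1 ∪ i.2.1 ∪ i.2.2.1).sup id + 1, ?_⟩
  have h : ∀ j ∈ i.1 ∪ i.2.1 ∪ i.2.2.1, trunc ((i.1 ∪ i.2.1 ∪ i.2.2.1).sup id + 1) x j = x j := by
    intro j hj
    have : j ≤ (i.1 ∪ i.2.1 ∪ i.2.2.1).sup id := le_sup (f := id) hj
    simp only [trunc]; rw [if_pos (by omega)]
  set n := (i.1 ∪ i.2.1 ∪ i.2.2.1).sup id + 1
  have e1 : vec (fun _ => 1) id i.1 (trunc n x) = vec (fun _ => 1) id i.1 x :=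
    vec_congr fun j hj => by rw [h j (by simp [hj])]
  have e2 : vec (fun j => wt (max j i.2.1.card)) g (i.2.2.1 \ i.2.1) (trunc n x)
      = vec (fun j => wt (max j i.2.1.card)) g (i.2.2.1 \ i.2.1) x :=
    vec_congr fun j hj => by rw [h j (by simp [(mem_sdiff.1 hj).1])]
  have e3 : ∑ j ∈ i.2.1, ‖trunc n x j‖ = ∑ j ∈ i.2.1, ‖x j‖ :=
    sum_congr rfl fun j hj => by rw [h j (by simp [hj])]
  unfold pp val
  rw [e1, e2, e3]

theorem reflexive (hg : Filter.Tendsto g Filter.atTop Filter.atTop) :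
    Function.Surjective (NormedSpace.inclusionInDoubleDual 𝕜 (XX 𝕜 g)) := by
  intro Φ
  set a : ℕ → 𝕜 := fun j => Φ (crd j) with ha
  let q : ℕ → XX 𝕜 g := fun n => ∑ j ∈ range n, a j • bas j
  let P : StrongDual 𝕜 (XX 𝕜 g) → ℕ → StrongDual 𝕜 (XX 𝕜 g) := fun f n =>
    ∑ j ∈ range n, f (bas j) • crd j
  have hP : ∀ f n x, P f n x = f (prj n x) := by
    intro f n x
    simp [P, prj, mul_comm]
  have hq : ∀ f n, f (q n) = Φ (P f n) := by
    intro f n
    simp [P, q, ha, mul_comm]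
  have hqn : ∀ n, ‖q n‖ ≤ 8 * ‖Φ‖ := by
    intro n
    refine NormedSpace.norm_le_dual_bound 𝕜 _ (by positivity) fun f => ?_
    rw [hq]
    have : ‖P f n‖ ≤ 8 * ‖f‖ := by
      refine ContinuousLinearMap.opNorm_le_bound _ (by positivity) fun x => ?_
      rw [hP]
      have := mul_le_mul_of_nonneg_left (norm_prj_le n x) (norm_nonneg f)
      linarith [f.le_opNorm (prj n x)]
    have := mul_le_mul_of_nonneg_left this (norm_nonneg Φ)
    linarith [Φ.le_opNorm (P f n)]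
  have hmem : ∀ i : Idx g, pp i a ≤ 8 * ‖Φ‖ := by
    intro i
    obtain ⟨n, hn⟩ := pp_trunc i a
    rw [← hn, ← seq_comb_range (g := g)]
    exact (pp_le_norm (q n) i).trans (hqn n)
  refine ⟨XX.mk a _ hmem, ?_⟩
  ext f
  rw [NormedSpace.dual_def]
  have h1 : Filter.Tendsto (fun n => f (q n)) Filter.atTop (𝓝 (f (XX.mk a _ hmem))) :=
    (f.continuous.tendsto _).comp (tendsto_prj hg (XX.mk a _ hmem))
  have h2 : Filter.Tendsto (fun n => P f n) Filter.atTop (𝓝 f) := by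
    rw [Metric.tendsto_atTop]
    intro ε hε
    obtain ⟨n₀, hn₀⟩ := shrink hg f (show 0 < ε / 9 by positivity)
    refine ⟨n₀, fun n hn => ?_⟩
    rw [dist_comm, dist_eq_norm]
    refine lt_of_le_of_lt (b := 8 * (ε / 9)) ?_ (by linarith)
    refine ContinuousLinearMap.opNorm_le_bound _ (by positivity) fun x => ?_
    have e : prj n₀ (x - prj n x) = 0 := by
      apply seq_ext
      rw [prj_seq, sub_prj_seq]
      funext j
      simp only [trunc, tail, seq_zero, Pi.zero_apply]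
      split_ifs with h1 h2
      · rfl
      · omega
      · rfl
    have h3 := hn₀ (x - prj n x)
    rw [e, sub_zero] at h3
    rw [_root_.sub_apply, hP, ← map_sub]
    have := mul_le_mul_of_nonneg_left (norm_sub_prj_le n x) (show 0 ≤ ε / 9 by positivity)
    linarith
  have h3 : Filter.Tendsto (fun n => f (q n)) Filter.atTop (𝓝 (Φ f)) := by
    simp only [hq]
    exact (Φ.continuous.tendsto f).comp h2
  exact tendsto_nhds_unique h1 h3

end Pool.Agent.Lib.MP_65ccae_an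
end

-- part Pool.Agent.Lib.MP_65ccae_an.Cond
section

namespace Pool.Agent.Lib.MP_65ccae_an

open Finset Topology

variable {𝕜 : Type} [RCLike 𝕜] {g : ℕ → ℕ}

theorem vec_block {S : Finset ℕ} {N : ℕ} (hS : ∀ j ∈ S, g j = N) (x : ℕ → 𝕜) (r : ℕ → ℝ)
    (hx : ∀ j ∈ S, (wt j : 𝕜) * x j = (r j : 𝕜)) : ‖vec wt g S x‖ = |∑ j ∈ S, r j| := by
  have : vec wt g S x = ((∑ j ∈ S, r j : ℝ) : 𝕜) • ev 𝕜 N := by
    unfold vec
    push_cast
    rw [sum_smul]
    exact sum_congr rfl fun j hj => by rw [hx j hj, hS j hj]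
  rw [this, norm_smul, norm_ev, mul_one, RCLike.norm_ofReal]

theorem not_uncond (hg : Filter.Tendsto g Filter.atTop Filter.atTop)
    (hl : ∀ C : ℝ, ∃ N p q, (∀ j ∈ Ico p q, g j = N) ∧ C ≤ ∑ j ∈ Ico p q, wt j ^ 2) :
    ¬ ∀ x : XX 𝕜 g, Summable fun n => crd n x • (bas n : XX 𝕜 g) := by
  classical
  intro h
  let U : UnconditionalSchauderBasis ℕ 𝕜 (XX 𝕜 g) :=
    { basis := bas
      coord := crd
      ortho := (sb hg).ortho
      expansion := fun x => by
        have h1 := (h x).hasSum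
        have h2 := tendsto_nhds_unique h1.tendsto_sum_nat (tendsto_prj hg x)
        rwa [h2] at h1 }
  obtain ⟨C, hC⟩ := U.exists_norm_proj_le
  have C0 : 0 ≤ C := (norm_nonneg _).trans (hC ∅)
  obtain ⟨N, p, q, hN, hL⟩ := hl ((16 * (2 * C + 1) + 1) ^ 2)
  set L := ∑ j ∈ Ico p q, wt j ^ 2 with hLdef
  let y : ℕ → ℝ := fun j => (-1) ^ j * wt j ^ 2
  let r : ℕ → ℝ := fun j => (y (j + 1) - y j) / wt j
  have ya : ∀ j, |y j| ≤ 1 := by
    intro j
    simp only [y, abs_mul, abs_pow, abs_neg, abs_one, one_pow, one_mul, abs_of_pos (wt_pos j)]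
    exact pow_le_one₀ (wt_pos j).le (wt_le_one j)
  have yd : ∀ j, |y (j + 1) - y j| = wt (j + 1) ^ 2 + wt j ^ 2 := by
    intro j
    have : y (j + 1) - y j = (-1) ^ (j + 1) * (wt (j + 1) ^ 2 + wt j ^ 2) := by
      simp only [y]; ring
    rw [this, abs_mul, abs_pow, abs_neg, abs_one, one_pow, one_mul, abs_of_nonneg (by positivity)]
  have wr : ∀ j, wt j * r j = y (j + 1) - y j := fun j => mul_div_cancel₀ _ (wt_pos j).ne'
  have ra : ∀ j, |r j| ≤ 2 * wt j := by
    intro j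
    simp only [r]
    rw [abs_div, yd, abs_of_pos (wt_pos j), div_le_iff₀ (wt_pos j)]
    have := pow_le_pow_left₀ (wt_pos (j + 1)).le (wt_anti (Nat.le_succ j)) 2
    linarith
  let x : XX 𝕜 g := ∑ j ∈ Ico p q, ((r j : ℝ) : 𝕜) • bas j
  have xs : x.seq = fun j => if j ∈ Ico p q then ((r j : ℝ) : 𝕜) else 0 := seq_comb _ _
  have b1 : Bd (fun _ => 1) id x.seq (2 * √L) := by
    intro F _
    refine (pow_le_pow_iff_left₀ (norm_nonneg _) (by positivity) two_ne_zero).1 ?_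
    rw [norm_vec_id_sq, mul_pow, Real.sq_sqrt (sum_nonneg fun _ _ => by positivity)]
    calc ∑ j ∈ F, ‖x.seq j‖ ^ 2 ≤ ∑ j ∈ F, if j ∈ Ico p q then 2 ^ 2 * wt j ^ 2 else 0 := by
          refine sum_le_sum fun j _ => ?_
          rw [xs]
          dsimp only
          split_ifs
          · rw [RCLike.norm_ofReal, ← mul_pow]
            exact pow_le_pow_left₀ (abs_nonneg _) (ra j) 2
          · simp
      _ = ∑ j ∈ F ∩ Ico p q, 2 ^ 2 * wt j ^ 2 := by rw [sum_ite_mem]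
      _ ≤ ∑ j ∈ Ico p q, 2 ^ 2 * wt j ^ 2 :=
          sum_le_sum_of_subset_of_nonneg inter_subset_right fun _ _ _ => by positivity
      _ = 2 ^ 2 * L := by rw [mul_sum]
  have b2 : Bd wt g x.seq 2 := by
    intro S hS
    rw [← vec_subset (S := S ∩ Ico p q) inter_subset_left (by
      intro j hj hj'
      rw [mem_inter, not_and] at hj'
      rw [xs]; simp only [if_neg (hj' hj)])]
    rw [vec_block (fun j hj => hN j (mem_inter.1 hj).2) x.seq (fun j => y (j + 1) - y j) (by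
      intro j hj
      rw [xs]; simp only [if_pos (mem_inter.1 hj).2]
      rw [← wr]; push_cast; rfl)]
    rcases (S ∩ Ico p q).eq_empty_or_nonempty with he | hne
    · rw [he]; simp
    · have ha := min'_mem _ hne
      have hb := max'_mem _ hne
      have hab := min'_le_max' _ hne
      set a := (S ∩ Ico p q).min' hne
      set b := (S ∩ Ico p q).max' hne
      have e : S ∩ Ico p q = Ico a (b + 1) := by
        ext j
        constructor
        · intro hj
          exact mem_Ico.2 ⟨min'_le _ _ hj, Nat.lt_succ_of_le (le_max' _ _ hj)⟩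
        · intro hj
          rw [mem_Ico] at hj
          rw [mem_inter] at ha hb ⊢
          refine ⟨hS a ha.1 b hb.1 ((hN a ha.2).trans (hN b hb.2).symm) j hj.1 (by omega), ?_⟩
          have := mem_Ico.1 ha.2
          have := mem_Ico.1 hb.2
          exact mem_Ico.2 (by omega)
      rw [e, sum_Ico_sub y (by omega)]
      have := abs_sub (y (b + 1)) (y a)
      linarith [ya (b + 1), ya a]
  have nx := norm_le_of_bd b1 b2
  let E := (Ico p q).filter fun j => 0 ≤ r j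
  let z : XX 𝕜 g := U.proj E x + U.proj E x - x
  have nz : ‖z‖ ≤ (2 * C + 1) * ‖x‖ := by
    have h1 : ‖U.proj E x‖ ≤ C * ‖x‖ :=
      ((U.proj E).le_opNorm x).trans (mul_le_mul_of_nonneg_right (hC E) (norm_nonneg _))
    have h2 := norm_sub_le (U.proj E x + U.proj E x) x
    have h3 := norm_add_le (U.proj E x) (U.proj E x)
    simp only [z]; linarith
  have ps : (U.proj E x).seq = fun j => if j ∈ E then x.seq j else 0 := by
    rw [GeneralSchauderBasis.proj_apply]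
    exact seq_comb E x.seq
  have lz : L ≤ ‖z‖ := by
    refine le_trans ?_ (bd2 z (Ico p q) (by
      intro i hi k hk _ j h1 h2
      rw [mem_Ico] at *; omega))
    rw [vec_block hN z.seq (fun j => |y (j + 1) - y j|) (by
      intro j hj
      rw [← wr, abs_mul, abs_of_pos (wt_pos j)]
      simp only [z, seq_sub, seq_add, ps, xs, Pi.sub_apply, Pi.add_apply, E,
        mem_filter, hj, true_and]
      by_cases h0 : 0 ≤ r j
      · simp [h0, abs_of_nonneg h0]
      · simp [h0, abs_of_neg (not_le.1 h0)])]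
    refine le_trans (sum_le_sum fun j _ => ?_) (le_abs_self _)
    rw [yd]
    linarith [sq_nonneg (wt (j + 1))]
  have L0 : 0 ≤ L := sum_nonneg fun _ _ => by positivity
  have s1 : 16 * (2 * C + 1) + 1 ≤ √L := Real.le_sqrt_of_sq_le hL
  have s2 : √L * √L = L := Real.mul_self_sqrt L0
  have s3 := mul_le_mul_of_nonneg_left nx (show 0 ≤ 2 * C + 1 by positivity)
  nlinarith

/-- harmonic sums -/
noncomputable def har (j : ℕ) : ℝ := ∑ i ∈ range j, 1 / ((i : ℝ) + 1)

/-- the block number -/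
noncomputable def blk (j : ℕ) : ℕ := Nat.sqrt ⌊har j⌋₊

theorem har_tendsto : Filter.Tendsto har Filter.atTop Filter.atTop :=
  Real.tendsto_sum_range_one_div_nat_succ_atTop

theorem har_mono : Monotone har := fun _ _ h =>
  sum_le_sum_of_subset_of_nonneg (range_mono h) fun _ _ _ => by positivity

theorem blk_tendsto : Filter.Tendsto blk Filter.atTop Filter.atTop := by
  have : Filter.Tendsto Nat.sqrt Filter.atTop Filter.atTop :=
    Filter.tendsto_atTop_atTop.2 fun b => ⟨b * b, fun _ h => Nat.le_sqrt.2 h⟩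
  exact this.comp (tendsto_nat_floor_atTop.comp har_tendsto)

theorem blk_long (C : ℝ) :
    ∃ N p q, (∀ j ∈ Ico p q, blk j = N) ∧ C ≤ ∑ j ∈ Ico p q, wt j ^ 2 := by
  classical
  obtain ⟨N, hN⟩ := exists_nat_ge C
  have ex : ∀ M : ℕ, ∃ j, (M : ℝ) ≤ har j := fun M =>
    (har_tendsto.eventually_ge_atTop (M : ℝ)).exists
  have hp := Nat.find_spec (ex (N * N))
  have hq := Nat.find_spec (ex ((N + 1) * (N + 1)))
  have hp' := fun j => Nat.find_min (m := j) (ex (N * N))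
  have hq' := fun j => Nat.find_min (m := j) (ex ((N + 1) * (N + 1)))
  set p := Nat.find (ex (N * N))
  set q := Nat.find (ex ((N + 1) * (N + 1)))
  have N0 : (0 : ℝ) ≤ N := by positivity
  have hpq : p ≤ q := by
    by_contra hc
    apply hp' q (not_le.1 hc)
    refine le_trans ?_ hq
    push_cast; nlinarith
  refine ⟨N, p, q, fun j hj => ?_, ?_⟩
  · rw [mem_Ico] at hj
    have h1 : N * N ≤ ⌊har j⌋₊ := Nat.le_floor (hp.trans (har_mono hj.1))
    have h2 : ⌊har j⌋₊ < (N + 1) * (N + 1) :=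
      (Nat.floor_lt (sum_nonneg fun _ _ => by positivity)).2 (not_le.1 (hq' j hj.2))
    exact (Nat.eq_sqrt.2 ⟨h1, h2⟩).symm
  · simp only [wt_sq]
    rw [sum_Ico_eq_sub _ hpq]
    have h1 : har p ≤ N * N + 1 := by
      rcases Nat.eq_zero_or_eq_succ_pred p with h0 | h0
      · rw [h0]; simp only [har, range_zero, sum_empty]; positivity
      · have h2 := not_le.1 (hp' p.pred (by omega))
        rw [h0]
        unfold har at h2 ⊢
        rw [sum_range_succ]
        have : 1 / ((p.pred : ℝ) + 1) ≤ 1 := by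
          rw [div_le_one (by positivity)]; linarith [Nat.cast_nonneg (α := ℝ) p.pred]
        push_cast at h2
        linarith
    unfold har at h1 hq
    push_cast at hq
    nlinarith

end Pool.Agent.Lib.MP_65ccae_an
end
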